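import Pool.Agent.W626.FR.Stms

/-!
# Project FR (MP_0cd4b8_pr, helper626): tasks FR-ALG and FR-DIR
-/

set_option autoImplicit false

namespace Pool.Agent.W782.FR

open MeasureTheory ProbabilityTheory Filter FrogGW FrogRec
open scoped ENNReal NNReal Classical Topology

/-! ## membership -/

theorem mem_lev (Z : Env) : ∀ (n : ℕ) (u : List ℕ), u ∈ lev Z n ↔ InTree Z u ∧ u.length = n := by
  intro n
  induction n with
  | zero =>
    intro u
    simp only [lev, Finset.mem_singleton, List.length_eq_zero_iff]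
    constructor
    · rintro rfl
      exact ⟨trivial, rfl⟩
    · exact fun h => h.2
  | succ n ih =>
    intro u
    simp only [lev, Finset.mem_biUnion, Finset.mem_image, Finset.mem_range]
    constructor
    · rintro ⟨v, hv, i, hi, rfl⟩
      obtain ⟨h1, h2⟩ := (ih v).mp hv
      exact ⟨⟨h1, hi⟩, by simp [h2]⟩
    · rintro ⟨h1, h2⟩
      cases u with
      | nil => simp at h2
      | cons i v =>
        exact ⟨v, (ih v).mpr ⟨h1.1, by simpa using h2⟩, i, h1.2, rfl⟩

theorem mem_vert (Z : Env) (N : ℕ) (u : List ℕ) : u ∈ vert Z N ↔ InTree Z u ∧ u.length < N := by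
  simp only [vert, Finset.mem_biUnion, Finset.mem_range]
  constructor
  · rintro ⟨n, hn, hu⟩
    obtain ⟨h1, h2⟩ := (mem_lev Z n u).mp hu
    exact ⟨h1, by omega⟩
  · rintro ⟨h1, h2⟩
    exact ⟨u.length, h2, (mem_lev Z _ u).mpr ⟨h1, rfl⟩⟩

theorem inTree_append (Z : Env) (i : ℕ) (x : List ℕ) :
    InTree Z (x ++ [i]) ↔ i < Z [] ∧ InTree (sh i Z) x := by
  induction x with
  | nil =>
    show (True ∧ i < Z []) ↔ (i < Z [] ∧ True)
    tauto
  | cons j v ih =>
    show (InTree Z (v ++ [i]) ∧ j < Z (v ++ [i])) ↔ (i < Z [] ∧ (InTree (sh i Z) v ∧ j < sh i Z v))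
    rw [ih]
    show _ ↔ (i < Z [] ∧ (InTree (sh i Z) v ∧ j < Z (v ++ [i])))
    tauto

theorem lev_succ' (Z : Env) (n : ℕ) : lev Z (n + 1) =
    (Finset.range (Z [])).biUnion fun i => (lev (sh i Z) n).image fun x => x ++ [i] := by
  ext u
  simp only [Finset.mem_biUnion, Finset.mem_image, Finset.mem_range]
  rw [mem_lev]
  constructor
  · rintro ⟨h1, h2⟩
    rcases List.eq_nil_or_concat u with h | ⟨x, i, h⟩
    · rw [h] at h2
      simp at h2
    · rw [List.concat_eq_append] at h
      subst h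
      obtain ⟨h3, h4⟩ := (inTree_append Z i x).mp h1
      exact ⟨i, h3, x, (mem_lev _ _ _).mpr ⟨h4, by simpa using h2⟩, rfl⟩
  · rintro ⟨i, hi, x, hx, rfl⟩
    obtain ⟨h3, h4⟩ := (mem_lev _ _ _).mp hx
    exact ⟨(inTree_append Z i x).mpr ⟨hi, h3⟩, by simp [h4]⟩

theorem sum_lev {A : Type*} [AddCommMonoid A] (Z : Env) (n : ℕ) (f : List ℕ → A) :
    ∑ z ∈ lev Z (n + 1), f z =
      ∑ i ∈ Finset.range (Z []), ∑ x ∈ lev (sh i Z) n, f (x ++ [i]) := by
  rw [lev_succ', Finset.sum_biUnion]
  · apply Finset.sum_congr rfl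
    intro i _
    rw [Finset.sum_image]
    intro x _ y _ hxy
    exact List.append_cancel_right hxy
  · intro i _ j _ hij
    rw [Function.onFun, Finset.disjoint_left]
    intro u hu hu'
    rw [Finset.mem_image] at hu hu'
    obtain ⟨x, _, rfl⟩ := hu
    obtain ⟨y, _, h⟩ := hu'
    apply hij
    have := congrArg List.getLast? h
    simpa using this.symm

theorem FF_append (n : ℕ) (Z : Env) (i : ℕ) (x : List ℕ) :
    FF (n + 1) Z (x ++ [i]) = FF n (sh i Z) x := by
  unfold FF
  have e1 : n + 1 - (x ++ [i]).length = n - x.length := by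
    rw [List.length_append, List.length_singleton]
    omega
  have e2 : sub (x ++ [i]) Z = sub x (sh i Z) := by
    funext v
    show Z (v ++ (x ++ [i])) = Z ((v ++ x) ++ [i])
    rw [List.append_assoc]
  rw [e1, e2]

theorem sub_nil (Z : Env) : sub [] Z = Z := by
  funext v
  show Z (v ++ []) = Z v
  rw [List.append_nil]

theorem kap_succ (n : ℕ) (Z : Env) : kap (n + 1) Z = KK n Z / (1 + KK n Z) := rfl

theorem one_sub_div (K : ℝ≥0) : 1 - K / (1 + K) = (1 + K)⁻¹ := by
  have h : (1 + K)⁻¹ + K / (1 + K) = 1 := by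
    rw [div_eq_mul_inv, ← one_add_mul, mul_inv_cancel₀]
    positivity
  exact tsub_eq_of_eq_add h.symm

theorem FF_root (n : ℕ) (Z : Env) : FF (n + 1) Z [] = (1 + KK n Z)⁻¹ := by
  unfold FF
  rw [sub_nil]
  show 1 - kap (n + 1) Z = _
  rw [kap_succ, one_sub_div]

theorem FF_le (N : ℕ) (Z : Env) (x : List ℕ) : FF N Z x ≤ 1 := tsub_le_self

theorem hh_append (n : ℕ) (Z : Env) (i : ℕ) (t x : List ℕ) :
    hh (n + 1) Z (t ++ [i]) (x ++ [i]) = hh n (sh i Z) t x := by
  induction x with
  | nil =>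
    show (if [i] = t ++ [i] then 1 else hh (n + 1) Z (t ++ [i]) [] * FF (n + 1) Z [i]) =
      if t = [] then 1 else 0
    by_cases h : t = []
    · subst h
      simp
    · have h1 : ¬ ([i] = t ++ [i]) := by
        intro h'
        have := congrArg List.length h'
        simp at this
        exact h this
      rw [if_neg h1, if_neg h]
      show (if t ++ [i] = [] then 1 else 0) * _ = 0
      rw [if_neg (by simp), zero_mul]
  | cons j v ih =>
    show (if j :: (v ++ [i]) = t ++ [i] then 1 else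
      hh (n + 1) Z (t ++ [i]) (v ++ [i]) * FF (n + 1) Z (j :: v ++ [i])) =
      if j :: v = t then 1 else hh n (sh i Z) t v * FF n (sh i Z) (j :: v)
    rw [ih, FF_append]
    have e : (j :: (v ++ [i]) = t ++ [i]) ↔ (j :: v = t) := by
      rw [← List.cons_append]
      exact ⟨fun h => List.append_cancel_right h, fun h => by rw [h]⟩
    simp only [e]

theorem bt_append (n : ℕ) (Z : Env) (i : ℕ) (t x : List ℕ) :
    bt (n + 1) Z (t ++ [i]) (x ++ [i]) = bt n (sh i Z) t x := by
  induction x with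
  | nil =>
    show (if [i] = t ++ [i] then 1 else bt (n + 1) Z (t ++ [i]) [] * FF (n + 1) Z []) =
      if t = [] then 1 else 0
    by_cases h : t = []
    · subst h
      simp
    · have h1 : ¬ ([i] = t ++ [i]) := by
        intro h'
        have := congrArg List.length h'
        simp at this
        exact h this
      rw [if_neg h1, if_neg h]
      show (if t ++ [i] = [] then 1 else 0) * _ = 0
      rw [if_neg (by simp), zero_mul]
  | cons j v ih =>
    show (if j :: (v ++ [i]) = t ++ [i] then 1 else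
      bt (n + 1) Z (t ++ [i]) (v ++ [i]) * FF (n + 1) Z (v ++ [i])) =
      if j :: v = t then 1 else bt n (sh i Z) t v * FF n (sh i Z) v
    rw [ih, FF_append]
    have e : (j :: (v ++ [i]) = t ++ [i]) ↔ (j :: v = t) := by
      rw [← List.cons_append]
      exact ⟨fun h => List.append_cancel_right h, fun h => by rw [h]⟩
    simp only [e]

theorem hh_nil_append (n : ℕ) (Z : Env) (i : ℕ) (x : List ℕ) :
    hh (n + 1) Z [] (x ++ [i]) = GG n (sh i Z) x := by
  induction x with
  | nil =>
    show (if [i] = [] then 1 else hh (n + 1) Z [] [] * FF (n + 1) Z ([] ++ [i])) =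
      FF n (sh i Z) [] * 1
    rw [if_neg (by simp), FF_append]
    show (if ([] : List ℕ) = [] then 1 else 0) * _ = _
    simp
  | cons j v ih =>
    show (if j :: (v ++ [i]) = [] then 1 else
      hh (n + 1) Z [] (v ++ [i]) * FF (n + 1) Z (j :: v ++ [i])) =
      FF n (sh i Z) [] * (if j :: v = [] then 1 else hh n (sh i Z) [] v * FF n (sh i Z) (j :: v))
    rw [if_neg (by simp), if_neg (by simp), ih, FF_append]
    unfold GG
    ring

theorem bt_nil_append (n : ℕ) (Z : Env) (i : ℕ) (x : List ℕ) :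
    bt (n + 1) Z [] (x ++ [i]) = FF (n + 1) Z [] * bt n (sh i Z) [] x := by
  induction x with
  | nil =>
    show (if [i] = [] then 1 else bt (n + 1) Z [] [] * FF (n + 1) Z []) =
      FF (n + 1) Z [] * (if ([] : List ℕ) = [] then 1 else 0)
    rw [if_neg (by simp)]
    show (if ([] : List ℕ) = [] then 1 else 0) * _ = _
    simp
  | cons j v ih =>
    show (if j :: (v ++ [i]) = [] then 1 else
      bt (n + 1) Z [] (v ++ [i]) * FF (n + 1) Z (v ++ [i])) =
      FF (n + 1) Z [] * (if j :: v = [] then 1 else bt n (sh i Z) [] v * FF n (sh i Z) v)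
    rw [if_neg (by simp), if_neg (by simp), ih, FF_append]
    ring

theorem sum_bt : ∀ (n : ℕ) (Z : Env), ∑ z ∈ lev Z n, bt n Z [] z = kap n Z := by
  intro n
  induction n with
  | zero =>
    intro Z
    show ∑ z ∈ {[]}, bt 0 Z [] z = 1
    rw [Finset.sum_singleton]
    show (if ([] : List ℕ) = [] then 1 else 0) = (1 : ℝ≥0)
    simp
  | succ n ih =>
    intro Z
    rw [sum_lev, kap_succ]
    have e : ∀ i, ∑ x ∈ lev (sh i Z) n, bt (n + 1) Z [] (x ++ [i]) =
        FF (n + 1) Z [] * kap n (sh i Z) := by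
      intro i
      rw [← ih (sh i Z), Finset.mul_sum]
      exact Finset.sum_congr rfl fun x _ => bt_nil_append n Z i x
    simp only [e]
    rw [← Finset.mul_sum, FF_root]
    show (1 + KK n Z)⁻¹ * KK n Z = _
    rw [mul_comm, div_eq_mul_inv]

theorem bt_pos : ∀ (n : ℕ) (Z : Env), ∀ z ∈ lev Z n, 0 < bt n Z [] z := by
  intro n
  induction n with
  | zero =>
    intro Z z hz
    have : z = [] := by simpa [lev] using hz
    subst this
    show (0 : ℝ≥0) < (if ([] : List ℕ) = [] then 1 else 0)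
    simp
  | succ n ih =>
    intro Z z hz
    rw [lev_succ'] at hz
    simp only [Finset.mem_biUnion, Finset.mem_image, Finset.mem_range] at hz
    obtain ⟨i, _, x, hx, rfl⟩ := hz
    rw [bt_nil_append, FF_root]
    have := ih (sh i Z) x hx
    positivity

theorem hh_le (n : ℕ) (Z : Env) (x : List ℕ) : hh n Z [] x ≤ 1 := by
  induction x with
  | nil =>
    show (if ([] : List ℕ) = [] then 1 else 0) ≤ (1 : ℝ≥0)
    simp
  | cons i v ih =>
    show (if i :: v = [] then 1 else hh n Z [] v * FF n Z (i :: v)) ≤ 1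
    rw [if_neg (by simp)]
    exact mul_le_one' ih (FF_le _ _ _)

theorem bt_le (n : ℕ) (Z : Env) (x : List ℕ) : bt n Z [] x ≤ 1 := by
  induction x with
  | nil =>
    show (if ([] : List ℕ) = [] then 1 else 0) ≤ (1 : ℝ≥0)
    simp
  | cons i v ih =>
    show (if i :: v = [] then 1 else bt n Z [] v * FF n Z v) ≤ 1
    rw [if_neg (by simp)]
    exact mul_le_one' ih (FF_le _ _ _)

/-- FR-ALG -/
theorem alg : TaskAlg := by
  refine ⟨?_, ?_, ?_, ?_⟩
  · intro n Z i x
    rw [mem_vert, mem_vert, mem_lev, mem_lev, inTree_append, List.length_append,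
      List.length_singleton]
    constructor
    · constructor
      · rintro ⟨⟨h1, h2⟩, h3⟩
        exact ⟨h1, h2, by omega⟩
      · rintro ⟨h1, h2, h3⟩
        exact ⟨⟨h1, h2⟩, by omega⟩
    · constructor
      · rintro ⟨⟨h1, h2⟩, h3⟩
        exact ⟨h1, h2, by omega⟩
      · rintro ⟨h1, h2, h3⟩
        exact ⟨⟨h1, h2⟩, by omega⟩
  · intro n Z x
    exact ⟨fun h => ((mem_vert _ _ _).mp h).2, fun h => ((mem_lev _ _ _).mp h).2⟩
  · intro n Z i t x
    refine ⟨FF_append n Z i x, hh_append n Z i t x, bt_append n Z i t x, hh_nil_append n Z i x,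
      bt_nil_append n Z i x, ?_⟩
    unfold GG
    rw [hh_nil_append]
    rfl
  · intro n Z
    refine ⟨FF_root n Z, sum_bt n Z, ?_, bt_pos n Z, fun x => ⟨hh_le n Z x, bt_le n Z x⟩⟩
    show FF (n + 1) Z [] * (if ([] : List ℕ) = [] then 1 else 0) = _
    simp

/-! ## The Dirichlet problem -/

theorem kap_le_one (n : ℕ) (Z : Env) : kap n Z ≤ 1 := by
  cases n with
  | zero => exact le_rfl
  | succ n =>
    rw [kap_succ]
    apply div_le_one_of_le₀ _ (zero_le)
    exact le_add_self

theorem sh_sub (j : ℕ) (x : List ℕ) (Z : Env) : sh j (sub x Z) = sub (j :: x) Z := by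
  funext v
  show Z ((v ++ [j]) ++ x) = Z (v ++ (j :: x))
  rw [List.append_assoc]
  rfl

theorem FF_eq (N : ℕ) (Z : Env) (x : List ℕ) (k : ℕ) (hk : N - x.length = k + 1) :
    FF N Z x = (1 + KK k (sub x Z))⁻¹ := by
  unfold FF
  rw [hk, kap_succ, one_sub_div]

theorem dir1 (Z : Env) (N i : ℕ) (v : List ℕ) (h : List ℕ → ℝ)
    (h1 : ∀ x ∈ vert Z N, i :: v <:+ x →
      h x * ((Z x : ℝ) + 1) = h x.tail + ∑ j ∈ Finset.range (Z x), h (j :: x))
    (h2 : ∀ x ∈ lev Z N, i :: v <:+ x → h x = 0) (h3 : h v = 0) :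
    ∀ x ∈ vert Z N, i :: v <:+ x → h x = 0 := by
  intro x0 hx0 hs0
  by_contra hne
  set S := (vert Z N).filter (fun x => i :: v <:+ x) with hS
  have hx0S : x0 ∈ S := Finset.mem_filter.mpr ⟨hx0, hs0⟩
  obtain ⟨x1, hx1, hmax⟩ := Finset.exists_max_image S (fun x => |h x|) ⟨x0, hx0S⟩
  set m := |h x1| with hm
  have hmpos : 0 < m := lt_of_lt_of_le (abs_pos.mpr hne) (hmax x0 hx0S)
  have hne' : (S.filter (fun x => |h x| = m)).Nonempty :=
    ⟨x1, Finset.mem_filter.mpr ⟨hx1, rfl⟩⟩
  obtain ⟨x, hx, hmin⟩ := Finset.exists_min_image (S.filter (fun x => |h x| = m))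
    (fun x => x.length) hne'
  obtain ⟨hxS, hxm⟩ := Finset.mem_filter.mp hx
  obtain ⟨hxv, hxs⟩ := Finset.mem_filter.mp hxS
  obtain ⟨hxt, hxl⟩ := (mem_vert _ _ _).mp hxv
  have hchild : ∀ j ∈ Finset.range (Z x), |h (j :: x)| ≤ m := by
    intro j hj
    have hs : i :: v <:+ j :: x := hxs.trans (List.suffix_cons j x)
    have ht : InTree Z (j :: x) := ⟨hxt, Finset.mem_range.mp hj⟩
    rcases lt_or_eq_of_le (show (j :: x).length ≤ N by simpa using hxl) with hl | hl
    · exact hmax _ (Finset.mem_filter.mpr ⟨(mem_vert _ _ _).mpr ⟨ht, hl⟩, hs⟩)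
    · rw [h2 _ ((mem_lev _ _ _).mpr ⟨ht, hl⟩) hs, abs_zero]
      exact hmpos.le
  have key : m ≤ |h x.tail| := by
    have e := h1 x hxv hxs
    have e1 : m * ((Z x : ℝ) + 1) ≤ |h x.tail| + Z x * m := by
      calc m * ((Z x : ℝ) + 1) = |h x * ((Z x : ℝ) + 1)| := by
            rw [abs_mul, hxm, abs_of_nonneg (by positivity : (0 : ℝ) ≤ (Z x : ℝ) + 1)]
        _ = |h x.tail + ∑ j ∈ Finset.range (Z x), h (j :: x)| := by rw [e]
        _ ≤ |h x.tail| + ∑ j ∈ Finset.range (Z x), |h (j :: x)| :=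
            (abs_add_le _ _).trans (add_le_add le_rfl (Finset.abs_sum_le_sum_abs _ _))
        _ ≤ |h x.tail| + ∑ _j ∈ Finset.range (Z x), m :=
            add_le_add le_rfl (Finset.sum_le_sum hchild)
        _ = |h x.tail| + Z x * m := by
            rw [Finset.sum_const, Finset.card_range, nsmul_eq_mul]
    nlinarith
  cases x with
  | nil =>
    have := List.suffix_nil.mp hxs
    simp at this
  | cons j x' =>
    rcases List.suffix_cons_iff.mp hxs with he | hs'
    · have : x' = v := by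
        injection he with _ h'
        exact h'.symm
      subst this
      simp only [List.tail_cons] at key
      rw [h3, abs_zero] at key
      linarith
    · have hx'v : x' ∈ vert Z N := (mem_vert _ _ _).mpr ⟨hxt.1, by
        simp only [List.length_cons] at hxl
        omega⟩
      have hx'S : x' ∈ S := Finset.mem_filter.mpr ⟨hx'v, hs'⟩
      have he : |h x'| = m := le_antisymm (hmax _ hx'S) key
      have := hmin x' (Finset.mem_filter.mpr ⟨hx'S, he⟩)
      simp only [List.length_cons] at this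
      omega

/-- FR-DIR -/
theorem dir : TaskDir := by
  refine ⟨fun Z N i v h _ h1 h2 h3 => dir1 Z N i v h h1 h2 h3, ?_, ?_⟩
  · intro N Z x hx
    obtain ⟨k, hk⟩ : ∃ k, N - x.length = k + 1 := ⟨N - x.length - 1, by omega⟩
    rw [FF_eq N Z x k hk]
    have e1 : ∀ j ∈ Finset.range (Z x), (FF N Z (j :: x) : ℝ) =
        1 - (kap k (sh j (sub x Z)) : ℝ) := by
      intro j _
      unfold FF
      rw [NNReal.coe_sub (kap_le_one _ _), sh_sub, show N - (j :: x).length = k by
        simp only [List.length_cons]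
        omega]
      rfl
    rw [Finset.sum_congr rfl e1, Finset.sum_sub_distrib, Finset.sum_const, Finset.card_range,
      nsmul_eq_mul, mul_one]
    have e2 : ((KK k (sub x Z) : ℝ≥0) : ℝ) =
        ∑ j ∈ Finset.range (Z x), (kap k (sh j (sub x Z)) : ℝ) := by
      unfold KK
      rw [NNReal.coe_sum]
      rfl
    rw [← e2, NNReal.coe_inv, NNReal.coe_add, NNReal.coe_one]
    have h0 : (0 : ℝ) ≤ (KK k (sub x Z) : ℝ) := NNReal.coe_nonneg _
    rw [show (Z x : ℝ) + 1 - (Z x - (KK k (sub x Z) : ℝ)) = 1 + (KK k (sub x Z) : ℝ) by ring]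
    exact inv_mul_cancel₀ (by positivity)
  · intro N Z x hx
    unfold FF
    rw [hx, Nat.sub_self]
    exact tsub_self _

end Pool.Agent.W782.FR
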