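import Pool.Agent.W626.FR.Stms
import Pool.Agent.W45.FG.Meas
import Pool.Agent.W930.FG.Score
import Pool.Agent.W782.FG.Split
import Pool.Agent.W782.FR.Alg

/-!
# Project FR (MP_0cd4b8_pr, helper626): tasks FR-CEM, FR-CE1, FR-CEP
-/

set_option autoImplicit false

namespace Pool.Agent.W782.FR

open MeasureTheory ProbabilityTheory Filter FrogGW FrogRec
open scoped ENNReal NNReal Classical Topology

/-- the law of the driving sequence -/
noncomputable abbrev PP : Measure (ℕ → ℝ) := Measure.infinitePi fun _ : ℕ => unif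

instance PP_prob : IsProbabilityMeasure PP := by
  unfold PP; infer_instance

theorem wsucc (Z : Env) (x : List ℕ) (u : ℕ → ℝ) (k : ℕ) :
    walk Z x u (k + 1) = walk Z (step Z x (u 0)) (fun i => u (i + 1)) k := by
  induction k with
  | zero => rfl
  | succ k ih =>
    rw [walk, ih]; rfl

/-! ## measurability -/

theorem meas_walkQ (Z : Env) (x : List ℕ) (k : ℕ) (Q : List ℕ → Prop) :
    Measurable fun u : ℕ → ℝ => Q (walk Z x u k) := by
  rw [← measurableSet_setOfPred]
  have e : {u : ℕ → ℝ | Q (walk Z x u k)} = ⋃ y ∈ {y | Q y}, {u | walk Z x u k = y} := by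
    ext u
    simp
  rw [e]
  exact MeasurableSet.biUnion (Set.to_countable _) fun y _ => Pool.Agent.W45.FG.taskMeas.2.2 Z x y k

theorem suffix_eq {t t' : List ℕ} (h : t <:+ t') (h' : t' <:+ t) : t = t' :=
  h.eq_of_length (le_antisymm h.length_le h'.length_le)

/-- FR-CEM -/
theorem cem : TaskCEm := by
  refine ⟨?_, ?_, ?_, ?_, ?_⟩
  · intro Z N x t z
    rw [measurableSet_setOfPred]
    unfold CE
    refine Measurable.exists fun k => ?_
    refine (meas_walkQ Z x k fun y => y = z).and ?_
    refine measurable_const.and ?_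
    refine Measurable.and (Measurable.forall fun k' => ?_) (Measurable.and ?_ ?_)
    · exact measurable_const.imp (meas_walkQ Z x k' fun y => y.length < N)
    · refine Measurable.exists fun k' => measurable_const.and (meas_walkQ Z x k' fun y => y = t)
    · exact Measurable.forall fun k' => measurable_const.imp (meas_walkQ Z x k' fun y => t <:+ y)
  · intro Z N x
    rw [measurableSet_setOfPred]
    unfold VE
    refine Measurable.exists fun k => (meas_walkQ Z x k fun y => y = []).and ?_
    exact Measurable.forall fun k' =>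
      measurable_const.imp (meas_walkQ Z x k' fun y => y.length < N)
  · rintro Z N x t z t' z' u ⟨k, h1, h2, h3, ⟨m, hm, hmt⟩, h5⟩ ⟨k', h1', h2', h3', ⟨m', hm', hmt'⟩, h5'⟩
    have hk : k = k' := by
      rcases lt_trichotomy k k' with h | h | h
      · have := h3' k h
        rw [h1] at this
        omega
      · exact h
      · have := h3 k' h
        rw [h1'] at this
        omega
    subst hk
    refine ⟨?_, h1.symm.trans h1'⟩
    have a := h5 m' hm'
    rw [hmt'] at a
    have b := h5' m hm
    rw [hmt] at b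
    exact suffix_eq a b
  · rintro Z N x t z u ⟨k, h1, h2, h3, -, h5⟩ ht ⟨k1, g1, g2⟩
    rcases le_or_gt k k1 with h | h
    · have := g2 k h
      rw [h1] at this
      omega
    · have := h5 k1 h.le
      rw [g1, List.suffix_nil] at this
      exact ht this
  · rintro Z N x t z u ⟨k, h1, h2, h3, -, h5⟩
    refine ⟨h5 0 (Nat.zero_le _), ?_⟩
    have := h5 k le_rfl
    rwa [h1] at this

/-! ## one step -/

theorem one_step (Z : Env) (x : List ℕ) (A : List ℕ → Set (ℕ → ℝ))
    (hA : ∀ y, MeasurableSet (A y)) :
    PP {u | (fun i => u (i + 1)) ∈ A (step Z x (u 0))} = ∫⁻ s, PP (A (step Z x s)) ∂unif := by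
  have hB : MeasurableSet {q : ℝ × (ℕ → ℝ) | q.2 ∈ A (step Z x q.1)} := by
    have e : {q : ℝ × (ℕ → ℝ) | q.2 ∈ A (step Z x q.1)} =
        ⋃ y : List ℕ, {s | step Z x s = y} ×ˢ A y := by
      ext q
      simp
    rw [e]
    refine MeasurableSet.iUnion fun y => MeasurableSet.prod ?_ (hA y)
    obtain ⟨g, h, hg, hgh⟩ := Pool.Agent.W45.FG.step_fac Z x
    have e2 : {s | step Z x s = y} = g ⁻¹' {n | h n = y} := by
      ext s
      simp [hgh]
    rw [e2]
    exact hg (MeasurableSet.of_discrete)
  have hs := Pool.Agent.W782.FG.seq ℝ unif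
  have e1 : {u : ℕ → ℝ | (fun i => u (i + 1)) ∈ A (step Z x (u 0))} =
      (fun u : ℕ → ℝ => (u 0, fun k => u (k + 1))) ⁻¹'
        {q : ℝ × (ℕ → ℝ) | q.2 ∈ A (step Z x q.1)} := rfl
  rw [e1, hs.measure_preimage hB.nullMeasurableSet, Measure.prod_apply hB]
  rfl

theorem one_step_cons (Z : Env) (i : ℕ) (v : List ℕ) (A : List ℕ → Set (ℕ → ℝ))
    (hA : ∀ y, MeasurableSet (A y)) :
    ((Z (i :: v) : ℝ≥0∞) + 1) * PP {u | (fun i => u (i + 1)) ∈ A (step Z (i :: v) (u 0))} =
      PP (A v) + ∑ j ∈ Finset.range (Z (i :: v)), PP (A (j :: i :: v)) := by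
  rw [one_step Z _ A hA, (Pool.Agent.W930.FG.taskStep Z (fun y => PP (A y))).2 i v, ← mul_assoc,
    ENNReal.mul_inv_cancel, one_mul]
  · simp
  · exact ENNReal.add_ne_top.mpr ⟨ENNReal.natCast_ne_top _, ENNReal.one_ne_top⟩

theorem one_step_nil (Z : Env) (hZ : 1 ≤ Z []) (A : List ℕ → Set (ℕ → ℝ))
    (hA : ∀ y, MeasurableSet (A y)) :
    (Z [] : ℝ≥0∞) * PP {u | (fun i => u (i + 1)) ∈ A (step Z [] (u 0))} =
      ∑ j ∈ Finset.range (Z []), PP (A [j]) := by
  rw [one_step Z _ A hA, (Pool.Agent.W930.FG.taskStep Z (fun y => PP (A y))).1 hZ, ← mul_assoc,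
    ENNReal.mul_inv_cancel, one_mul]
  · simp
    omega
  · exact ENNReal.natCast_ne_top _

theorem ce_step (Z : Env) (N : ℕ) (x t z : List ℕ) (u : ℕ → ℝ) (hx : x.length < N)
    (ht : t <:+ x) (hne : t ≠ x) :
    CE Z N x t z u ↔ CE Z N (step Z x (u 0)) t z (fun i => u (i + 1)) := by
  constructor
  · rintro ⟨k, h1, h2, h3, ⟨m, hm, hmt⟩, h5⟩
    cases k with
    | zero =>
      rw [show walk Z x u 0 = x from rfl] at h1
      subst h1
      omega
    | succ k =>
      rw [wsucc] at h1
      refine ⟨k, h1, h2, fun k' hk' => ?_, ?_, fun k' hk' => ?_⟩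
      · rw [← wsucc]
        exact h3 (k' + 1) (by omega)
      · cases m with
        | zero => exact absurd hmt.symm hne
        | succ m =>
          refine ⟨m, by omega, ?_⟩
          rw [← wsucc]
          exact hmt
      · rw [← wsucc]
        exact h5 (k' + 1) (by omega)
  · rintro ⟨k, h1, h2, h3, ⟨m, hm, hmt⟩, h5⟩
    refine ⟨k + 1, ?_, h2, ?_, ⟨m + 1, by omega, ?_⟩, ?_⟩
    · rw [wsucc]
      exact h1
    · intro k' hk'
      cases k' with
      | zero => exact hx
      | succ k' =>
        rw [wsucc]
        exact h3 k' (by omega)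
    · rw [wsucc]
      exact hmt
    · intro k' hk'
      cases k' with
      | zero => exact ht
      | succ k' =>
        rw [wsucc]
        exact h5 k' (by omega)

theorem ve_step (Z : Env) (N : ℕ) (x : List ℕ) (u : ℕ → ℝ) (hx : x.length < N) (hne : x ≠ []) :
    VE Z N x u ↔ VE Z N (step Z x (u 0)) (fun i => u (i + 1)) := by
  constructor
  · rintro ⟨k, h1, h2⟩
    cases k with
    | zero => exact absurd h1 hne
    | succ k =>
      rw [wsucc] at h1
      refine ⟨k, h1, fun k' hk' => ?_⟩
      rw [← wsucc]
      exact h2 (k' + 1) (by omega)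
  · rintro ⟨k, h1, h2⟩
    refine ⟨k + 1, ?_, ?_⟩
    · rw [wsucc]
      exact h1
    · intro k' hk'
      cases k' with
      | zero => exact hx
      | succ k' =>
        rw [wsucc]
        exact h2 k' (by omega)

/-- a walk in the subtree of `t` that starts at the child `y` and avoids `t` stays below `y` -/
theorem stay (Z : Env) (t : List ℕ) (j : ℕ) (v : ℕ → ℝ) (k : ℕ)
    (h : ∀ k' ≤ k, walk Z (j :: t) v k' ≠ t) : ∀ k' ≤ k, j :: t <:+ walk Z (j :: t) v k' := by
  intro k'
  induction k' with
  | zero => exact fun _ => List.suffix_rfl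
  | succ k' ih =>
    intro hk'
    have h0 := ih (by omega)
    rw [walk]
    rcases Pool.Agent.W930.FG.step_cases Z (walk Z (j :: t) v k') (v k') with ⟨i, hi⟩ | ⟨i, hi⟩
    · rw [hi]
      exact h0.trans (List.suffix_cons _ _)
    · have h1 := h0
      rw [hi] at h1
      rcases List.suffix_cons_iff.mp h1 with h2 | h2
      · exfalso
        apply h (k' + 1) hk'
        rw [walk]
        injection h2 with _ h3
        exact h3.symm
      · exact h2

theorem ce_diag (Z : Env) (N : ℕ) (t z : List ℕ) (u : ℕ → ℝ) (ht : t.length < N) :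
    CE Z N t t z u ↔ (∃ j, step Z t (u 0) = j :: t) ∧
      (CE Z N (step Z t (u 0)) t z (fun i => u (i + 1)) ∨
        CE Z N (step Z t (u 0)) (step Z t (u 0)) z (fun i => u (i + 1))) := by
  constructor
  · rintro ⟨k, h1, h2, h3, -, h5⟩
    cases k with
    | zero =>
      rw [show walk Z t u 0 = t from rfl] at h1
      subst h1
      omega
    | succ k =>
      have hch : ∃ j, step Z t (u 0) = j :: t := by
        rcases Pool.Agent.W930.FG.step_cases Z t (u 0) with h | ⟨i, hi⟩
        · exact h
        · exfalso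
          have := h5 1 (by omega)
          rw [show walk Z t u 1 = step Z t (u 0) from rfl] at this
          have h6 := this.length_le
          have h7 := congrArg List.length hi
          rw [List.length_cons] at h7
          omega
      refine ⟨hch, ?_⟩
      obtain ⟨j, hj⟩ := hch
      rw [wsucc] at h1
      have h3' : ∀ k' < k, (walk Z (step Z t (u 0)) (fun i => u (i + 1)) k').length < N := by
        intro k' hk'
        rw [← wsucc]
        exact h3 (k' + 1) (by omega)
      by_cases hv : ∃ k' ≤ k, walk Z (step Z t (u 0)) (fun i => u (i + 1)) k' = t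
      · left
        refine ⟨k, h1, h2, h3', hv, fun k' hk' => ?_⟩
        rw [← wsucc]
        exact h5 (k' + 1) (by omega)
      · right
        push Not at hv
        refine ⟨k, h1, h2, h3', ⟨0, Nat.zero_le _, rfl⟩, ?_⟩
        rw [hj]
        rw [hj] at hv
        exact stay Z t j _ k hv
  · rintro ⟨⟨j, hj⟩, h | h⟩
    · obtain ⟨k, h1, h2, h3, -, h5⟩ := h
      refine ⟨k + 1, ?_, h2, ?_, ⟨0, Nat.zero_le _, rfl⟩, ?_⟩
      · rw [wsucc]
        exact h1
      · intro k' hk'
        cases k' with
        | zero => exact ht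
        | succ k' =>
          rw [wsucc]
          exact h3 k' (by omega)
      · intro k' hk'
        cases k' with
        | zero => exact List.suffix_rfl
        | succ k' =>
          rw [wsucc]
          exact h5 k' (by omega)
    · obtain ⟨k, h1, h2, h3, -, h5⟩ := h
      refine ⟨k + 1, ?_, h2, ?_, ⟨0, Nat.zero_le _, rfl⟩, ?_⟩
      · rw [wsucc]
        exact h1
      · intro k' hk'
        cases k' with
        | zero => exact ht
        | succ k' =>
          rw [wsucc]
          exact h3 k' (by omega)
      · intro k' hk'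
        cases k' with
        | zero => exact List.suffix_rfl
        | succ k' =>
          rw [wsucc]
          refine List.IsSuffix.trans ?_ (h5 k' (by omega))
          rw [hj]
          exact List.suffix_cons _ _

/-- the events of the second step in `ce_diag` -/
def AD (Z : Env) (N : ℕ) (t z : List ℕ) (y : List ℕ) : Set (ℕ → ℝ) :=
  {v | (∃ j, y = j :: t) ∧ (CE Z N y t z v ∨ CE Z N y y z v)}

theorem meas_AD (Z : Env) (N : ℕ) (t z y : List ℕ) : MeasurableSet (AD Z N t z y) := by
  unfold AD
  by_cases h : ∃ j, y = j :: t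
  · have e : {v : ℕ → ℝ | (∃ j, y = j :: t) ∧ (CE Z N y t z v ∨ CE Z N y y z v)} =
        {v | CE Z N y t z v} ∪ {v | CE Z N y y z v} := by
      ext v
      simp [h]
    rw [e]
    exact (cem.1 _ _ _ _ _).union (cem.1 _ _ _ _ _)
  · have e : {v : ℕ → ℝ | (∃ j, y = j :: t) ∧ (CE Z N y t z v ∨ CE Z N y y z v)} = ∅ := by
      ext v
      simp [h]
    rw [e]
    exact MeasurableSet.empty

theorem PP_AD (Z : Env) (N : ℕ) (t z : List ℕ) (j : ℕ) : PP (AD Z N t z (j :: t)) =
    PP {u | CE Z N (j :: t) t z u} + PP {u | CE Z N (j :: t) (j :: t) z u} := by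
  have e : AD Z N t z (j :: t) =
      {u | CE Z N (j :: t) t z u} ∪ {u | CE Z N (j :: t) (j :: t) z u} := by
    ext v
    simp [AD]
  rw [e, measure_union _ (cem.1 _ _ _ _ _)]
  rw [Set.disjoint_left]
  intro v hv hv'
  have := (cem.2.2.1 _ _ _ _ _ _ _ _ hv hv').1
  have h2 := congrArg List.length this
  simp at h2

/-- FR-CE1 -/
theorem ce1 : TaskCE1 := by
  refine ⟨?_, ?_, ?_, ?_, ?_⟩
  · intro Z N x t z hx hne ht htx
    cases x with
    | nil => exact absurd rfl hne
    | cons i v =>
      have hl := ((mem_vert _ _ _).mp hx).2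
      have h := one_step_cons Z i v (fun y => {u | CE Z N y t z u}) fun y => cem.1 _ _ _ _ _
      rw [List.tail_cons, ← h]
      congr 2
      ext u
      exact ce_step Z N (i :: v) t z u hl ht htx
  · intro Z N t z ht hne
    cases t with
    | nil => exact absurd rfl hne
    | cons i v =>
      have hl := ((mem_vert _ _ _).mp ht).2
      have h := one_step_cons Z i v (AD Z N (i :: v) z) fun y => meas_AD _ _ _ _ _
      have e0 : PP (AD Z N (i :: v) z v) = 0 := by
        have : AD Z N (i :: v) z v = ∅ := by
          ext u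
          simp only [AD, Set.mem_ofPred_eq, Set.mem_empty_iff_false, iff_false]
          rintro ⟨⟨j, hj⟩, -⟩
          have := congrArg List.length hj
          simp at this
          omega
        rw [this, measure_empty]
      rw [e0, zero_add, Finset.sum_congr rfl fun j _ => PP_AD Z N (i :: v) z j] at h
      rw [← h]
      congr 2
      ext u
      exact ce_diag Z N (i :: v) z u hl
  · intro Z N z hZ hN
    have h := one_step_nil Z hZ (AD Z N [] z) fun y => meas_AD _ _ _ _ _
    rw [Finset.sum_congr rfl fun j _ => PP_AD Z N [] z j] at h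
    rw [← h]
    congr 2
    ext u
    exact ce_diag Z N [] z u (show 0 < N by omega)
  · intro Z N x hx hne
    cases x with
    | nil => exact absurd rfl hne
    | cons i v =>
      have hl := ((mem_vert _ _ _).mp hx).2
      have h := one_step_cons Z i v (fun y => {u | VE Z N y u}) fun y => cem.2.1 _ _ _
      rw [List.tail_cons, ← h]
      congr 2
      ext u
      exact ve_step Z N (i :: v) u hl hne
  · intro Z N x t z u hx
    constructor
    · constructor
      · rintro ⟨k, h1, h2, h3, ⟨m, hm, hmt⟩, h5⟩
        cases k with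
        | zero =>
          have : m = 0 := by omega
          subst this
          exact ⟨h1.symm, hmt.symm⟩
        | succ k =>
          have := h3 0 (by omega)
          rw [show walk Z x u 0 = x from rfl] at this
          omega
      · rintro ⟨rfl, rfl⟩
        refine ⟨0, rfl, hx, fun k' hk' => absurd hk' (Nat.not_lt_zero _), ⟨0, le_rfl, rfl⟩, ?_⟩
        intro k' hk'
        have : k' = 0 := by omega
        subst this
        exact List.suffix_rfl
    · rintro ⟨k, h1, h2⟩
      have := h2 0 (Nat.zero_le _)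
      rw [show walk Z x u 0 = x from rfl] at this
      omega

/-! ## probabilities of the classes -/

theorem hh_self (N : ℕ) (Z : Env) (t : List ℕ) : hh N Z t t = 1 := by
  cases t with
  | nil => show (if ([] : List ℕ) = [] then 1 else 0) = (1 : ℝ≥0); simp
  | cons i v =>
    show (if i :: v = i :: v then 1 else _) = (1 : ℝ≥0)
    simp

theorem hh_cons (N : ℕ) (Z : Env) (t : List ℕ) (i : ℕ) (v : List ℕ) (h : t <:+ v) :
    hh N Z t (i :: v) = hh N Z t v * FF N Z (i :: v) := by
  show (if i :: v = t then 1 else _) = _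
  rw [if_neg]
  intro h'
  have := h.length_le
  rw [← h', List.length_cons] at this
  omega

theorem bt_self (N : ℕ) (Z : Env) (t : List ℕ) : bt N Z t t = 1 := by
  cases t with
  | nil => show (if ([] : List ℕ) = [] then 1 else 0) = (1 : ℝ≥0); simp
  | cons i v =>
    show (if i :: v = i :: v then 1 else _) = (1 : ℝ≥0)
    simp

theorem bt_cons (N : ℕ) (Z : Env) (t : List ℕ) (i : ℕ) (v : List ℕ) (h : t <:+ v) :
    bt N Z t (i :: v) = bt N Z t v * FF N Z v := by
  show (if i :: v = t then 1 else _) = _
  rw [if_neg]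
  intro h'
  have := h.length_le
  rw [← h', List.length_cons] at this
  omega

theorem bt_up (N : ℕ) (Z : Env) (t : List ℕ) (j : ℕ) (z : List ℕ) (h : j :: t <:+ z) :
    bt N Z t z = FF N Z t * bt N Z (j :: t) z := by
  induction z with
  | nil =>
    have := List.suffix_nil.mp h
    simp at this
  | cons i v ih =>
    rcases List.suffix_cons_iff.mp h with h1 | h1
    · injection h1 with h2 h3
      subst h2 h3
      rw [bt_self, bt_cons N Z t j t List.suffix_rfl, bt_self, one_mul, mul_one]
    · rw [bt_cons N Z (j :: t) i v h1, bt_cons N Z t i v ((List.suffix_cons _ _).trans h1), ih h1]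
      ring

/-- the real probabilities -/
noncomputable def cc (Z : Env) (N : ℕ) (t z x : List ℕ) : ℝ := (PP {u | CE Z N x t z u}).toReal

theorem cc_lev (Z : Env) (N : ℕ) (t z x : List ℕ) (hx : x.length = N) (hz : ¬ (z = x ∧ t = x)) :
    cc Z N t z x = 0 := by
  unfold cc
  have e : {u | CE Z N x t z u} = ∅ := by
    ext u
    simp only [Set.mem_ofPred_eq, Set.mem_empty_iff_false, iff_false]
    rw [(ce1.2.2.2.2 Z N x t z u hx).1]
    exact hz
  rw [e, measure_empty]
  rfl

theorem cc_lev1 (Z : Env) (N : ℕ) (x : List ℕ) (hx : x.length = N) : cc Z N x x x = 1 := by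
  unfold cc
  have e : {u | CE Z N x x x u} = Set.univ := by
    ext u
    simp only [Set.mem_ofPred_eq, Set.mem_univ, iff_true]
    rw [(ce1.2.2.2.2 Z N x x x u hx).1]
    exact ⟨rfl, rfl⟩
  rw [e, measure_univ]
  rfl

theorem cc_zero (Z : Env) (N : ℕ) (t z x : List ℕ) (h : ¬ (t <:+ x ∧ t <:+ z)) :
    cc Z N t z x = 0 := by
  unfold cc
  have e : {u | CE Z N x t z u} = ∅ := by
    ext u
    simp only [Set.mem_ofPred_eq, Set.mem_empty_iff_false, iff_false]
    exact fun hu => h (cem.2.2.2.2 Z N x t z u hu)
  rw [e, measure_empty]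
  rfl

theorem cc_harm (Z : Env) (N : ℕ) (t z x : List ℕ) (hx : x ∈ vert Z N) (hne : x ≠ [])
    (ht : t <:+ x) (htx : t ≠ x) :
    cc Z N t z x * ((Z x : ℝ) + 1) = cc Z N t z x.tail +
      ∑ j ∈ Finset.range (Z x), cc Z N t z (j :: x) := by
  have h := congrArg ENNReal.toReal (ce1.1 Z N x t z hx hne ht htx)
  rw [ENNReal.toReal_mul, ENNReal.toReal_add (measure_ne_top _ _)
    (ENNReal.sum_ne_top.mpr fun j _ => measure_ne_top _ _), ENNReal.toReal_sum
    (fun j _ => measure_ne_top _ _)] at h
  have e : ((Z x : ℝ≥0∞) + 1).toReal = (Z x : ℝ) + 1 := by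
    rw [ENNReal.toReal_add (ENNReal.natCast_ne_top _) ENNReal.one_ne_top]
    simp
  rw [e] at h
  unfold cc
  rw [mul_comm]
  exact h

/-- the Dirichlet problem below a child of `t` -/
theorem below (Z : Env) (N : ℕ) (t z : List ℕ) (j : ℕ) :
    ∀ x ∈ vert Z N, j :: t <:+ x → cc Z N t z x = (hh N Z t x : ℝ) * cc Z N t z t := by
  intro x hx hs
  have key := dir1 Z N j t (fun x => cc Z N t z x - (hh N Z t x : ℝ) * cc Z N t z t) ?_ ?_ ?_ x hx hs
  · linarith
  · intro x hx hs
    have hts : t <:+ x := (List.suffix_cons j t).trans hs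
    have htx : t ≠ x := by
      rintro rfl
      have := hs.length_le
      rw [List.length_cons] at this
      omega
    cases x with
    | nil =>
      have := List.suffix_nil.mp hs
      simp at this
    | cons i v =>
      have h1 := cc_harm Z N t z (i :: v) hx (by simp) hts htx
      have h2 := dir.2.1 N Z (i :: v) ((mem_vert _ _ _).mp hx).2
      have htv : t <:+ v := by
        rcases List.suffix_cons_iff.mp hts with h | h
        · exact absurd h htx
        · exact h
      have h3 : ∀ j' ∈ Finset.range (Z (i :: v)), (hh N Z t (j' :: i :: v) : ℝ) =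
          (hh N Z t (i :: v) : ℝ) * FF N Z (j' :: i :: v) := by
        intro j' _
        rw [hh_cons N Z t j' (i :: v) hts]
        rfl
      have h4 : (hh N Z t (i :: v) : ℝ) = (hh N Z t v : ℝ) * FF N Z (i :: v) := by
        rw [hh_cons N Z t i v htv]
        rfl
      simp only [List.tail_cons] at h1 ⊢
      rw [Finset.sum_sub_distrib, ← Finset.sum_mul, Finset.sum_congr rfl h3, ← Finset.mul_sum]
      have h5 : (hh N Z t (i :: v) : ℝ) * ((Z (i :: v) : ℝ) + 1 -
          ∑ j ∈ Finset.range (Z (i :: v)), (FF N Z (j :: i :: v) : ℝ)) = hh N Z t v := by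
        rw [h4, mul_assoc, h2, mul_one]
      linear_combination h1 - cc Z N t z t * h5
  · intro x hx hs
    have hl := ((mem_lev _ _ _).mp hx).2
    have htx : t ≠ x := by
      rintro rfl
      have := hs.length_le
      rw [List.length_cons] at this
      omega
    cases x with
    | nil =>
      have := List.suffix_nil.mp hs
      simp at this
    | cons i v =>
      have hts : t <:+ i :: v := (List.suffix_cons j t).trans hs
      have htv : t <:+ v := by
        rcases List.suffix_cons_iff.mp hts with h | h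
        · exact absurd h htx
        · exact h
      rw [cc_lev Z N t z _ hl (fun h => htx h.2), hh_cons N Z t i v htv, dir.2.2 N Z _ hl]
      simp
  · rw [hh_self]
    simp

theorem cc_child (Z : Env) (N : ℕ) (t z : List ℕ) (j : ℕ) (ht : t ∈ vert Z N) (hj : j < Z t) :
    cc Z N t z (j :: t) = (FF N Z (j :: t) : ℝ) * cc Z N t z t := by
  obtain ⟨h1, h2⟩ := (mem_vert _ _ _).mp ht
  rcases lt_or_eq_of_le (show (j :: t).length ≤ N by simpa using h2) with hl | hl
  · rw [below Z N t z j (j :: t) ((mem_vert _ _ _).mpr ⟨⟨h1, hj⟩, hl⟩) List.suffix_rfl,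
      hh_cons N Z t j t List.suffix_rfl, hh_self, one_mul]
  · rw [cc_lev Z N t z _ hl, dir.2.2 N Z _ hl]
    · simp
    · rintro ⟨-, h⟩
      have := congrArg List.length h
      simp at this

theorem suffix_child {t z : List ℕ} (h : t <:+ z) (hl : t.length < z.length) :
    ∃ j, j :: t <:+ z := by
  obtain ⟨w, hw⟩ := h
  rcases List.eq_nil_or_concat w with h | ⟨w', j, h⟩
  · subst h
    rw [← hw] at hl
    simp at hl
  · subst h
    refine ⟨j, w', ?_⟩
    rw [← hw]
    simp

theorem suffix_inj {t z : List ℕ} {j j' : ℕ} (h : j :: t <:+ z) (h' : j' :: t <:+ z) : j = j' := by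
  have := List.suffix_of_suffix_length_le h h' (by simp)
  have := this.eq_of_length (by simp)
  injection this

theorem inTree_suffix (Z : Env) {t z : List ℕ} (hz : InTree Z z) (h : t <:+ z) : InTree Z t := by
  induction z with
  | nil =>
    rw [List.suffix_nil.mp h]
    exact trivial
  | cons i v ih =>
    rcases List.suffix_cons_iff.mp h with h1 | h1
    · rw [h1]
      exact hz
    · exact ih hz.1 h1

/-- the sum over the children in the equation at `t` -/
theorem cc_sum (Z : Env) (N : ℕ) (t z : List ℕ) (ht : t ∈ vert Z N) (hz : z ∈ lev Z N)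
    (j0 : ℕ) (hj0 : j0 :: t <:+ z)
    (hB : cc Z N (j0 :: t) z (j0 :: t) = (bt N Z (j0 :: t) z : ℝ)) :
    ∑ j ∈ Finset.range (Z t), (cc Z N t z (j :: t) + cc Z N (j :: t) z (j :: t)) =
      (∑ j ∈ Finset.range (Z t), (FF N Z (j :: t) : ℝ)) * cc Z N t z t +
        (bt N Z (j0 :: t) z : ℝ) := by
  rw [Finset.sum_add_distrib, Finset.sum_mul]
  congr 1
  · apply Finset.sum_congr rfl
    intro j hj
    exact cc_child Z N t z j ht (Finset.mem_range.mp hj)
  · have hzt := ((mem_lev _ _ _).mp hz).1
    have hj0t := inTree_suffix Z hzt hj0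
    rw [Finset.sum_eq_single j0, hB]
    · intro j _ hj
      exact cc_zero Z N (j :: t) z (j :: t) fun h => hj (suffix_inj h.2 hj0)
    · intro h
      exact absurd (Finset.mem_range.mpr hj0t.2) h

theorem cc_diag (Z : Env) (N : ℕ) (z : List ℕ) (hz : z ∈ lev Z N) : ∀ (d : ℕ) (t : List ℕ),
    t.length + d = N → t ≠ [] → t <:+ z → cc Z N t z t = (bt N Z t z : ℝ) := by
  obtain ⟨hzt, hzl⟩ := (mem_lev _ _ _).mp hz
  intro d
  induction d with
  | zero =>
    intro t ht hne hs
    have : t = z := hs.eq_of_length (by omega)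
    subst this
    rw [cc_lev1 Z N t (by omega), bt_self]
    rfl
  | succ d ih =>
    intro t ht hne hs
    have htv : t ∈ vert Z N := (mem_vert _ _ _).mpr ⟨inTree_suffix Z hzt hs, by omega⟩
    obtain ⟨j0, hj0⟩ := suffix_child hs (by omega)
    have hB := ih (j0 :: t) (by rw [List.length_cons]; omega) (by simp) hj0
    have h := congrArg ENNReal.toReal (ce1.2.1 Z N t z htv hne)
    rw [ENNReal.toReal_mul, ENNReal.toReal_sum
      (fun j _ => ENNReal.add_ne_top.mpr ⟨measure_ne_top _ _, measure_ne_top _ _⟩)] at h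
    have e : ((Z t : ℝ≥0∞) + 1).toReal = (Z t : ℝ) + 1 := by
      rw [ENNReal.toReal_add (ENNReal.natCast_ne_top _) ENNReal.one_ne_top]
      simp
    rw [e] at h
    have e2 : ∀ j ∈ Finset.range (Z t), (PP {u | CE Z N (j :: t) t z u} +
        PP {u | CE Z N (j :: t) (j :: t) z u}).toReal =
        cc Z N t z (j :: t) + cc Z N (j :: t) z (j :: t) := by
      intro j _
      rw [ENNReal.toReal_add (measure_ne_top _ _) (measure_ne_top _ _)]
      rfl
    rw [Finset.sum_congr rfl e2, cc_sum Z N t z htv hz j0 hj0 hB] at h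
    have h1 : ((Z t : ℝ) + 1) * cc Z N t z t =
      (∑ j ∈ Finset.range (Z t), (FF N Z (j :: t) : ℝ)) * cc Z N t z t +
        (bt N Z (j0 :: t) z : ℝ) := h
    have h2 := dir.2.1 N Z t ((mem_vert _ _ _).mp htv).2
    rw [bt_up N Z t j0 z hj0, NNReal.coe_mul]
    linear_combination (FF N Z t : ℝ) * h1 - cc Z N t z t * h2

/-- FR-CEP -/
theorem cep : TaskCEp := by
  refine ⟨?_, ?_, ?_⟩
  · intro Z N x t z hx hne hs hz hsz
    obtain ⟨hxt, hxl⟩ := (mem_vert _ _ _).mp hx
    have hd := cc_diag Z N z hz (N - t.length) t (by have := hs.length_le; omega) hne hsz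
    have h1 : cc Z N t z x = (hh N Z t x : ℝ) * cc Z N t z t := by
      by_cases hxt' : t = x
      · subst hxt'
        rw [hh_self]
        simp
      · have hlt : t.length < x.length := by
          rcases lt_or_eq_of_le hs.length_le with h | h
          · exact h
          · exact absurd (hs.eq_of_length h) hxt'
        obtain ⟨j, hj⟩ := suffix_child hs hlt
        exact below Z N t z j x hx hj
    rw [hd] at h1
    rw [← ENNReal.ofReal_toReal (measure_ne_top (Measure.infinitePi fun _ : ℕ => unif) _)]
    rw [← ENNReal.ofReal_coe_nnreal]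
    congr 1
  · intro Z n z hK hz
    obtain ⟨hzt, hzl⟩ := (mem_lev _ _ _).mp hz
    have hZ : 1 ≤ Z [] := by
      by_contra h
      apply hK
      unfold KK
      rw [show Z [] = 0 by omega]
      simp
    have hv : ([] : List ℕ) ∈ vert Z (n + 1) := (mem_vert _ _ _).mpr ⟨trivial, by simp⟩
    obtain ⟨j0, hj0⟩ := suffix_child (List.nil_suffix (l := z)) (by rw [hzl]; simp)
    have hB := cc_diag Z (n + 1) z hz n [j0] (by simp; omega) (by simp) hj0
    have h := congrArg ENNReal.toReal (ce1.2.2.1 Z (n + 1) z hZ (by omega))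
    rw [ENNReal.toReal_mul, ENNReal.toReal_sum
      (fun j _ => ENNReal.add_ne_top.mpr ⟨measure_ne_top _ _, measure_ne_top _ _⟩)] at h
    have e2 : ∀ j ∈ Finset.range (Z []), (PP {u | CE Z (n + 1) [j] [] z u} +
        PP {u | CE Z (n + 1) [j] [j] z u}).toReal =
        cc Z (n + 1) [] z (j :: []) + cc Z (n + 1) (j :: []) z (j :: []) := by
      intro j _
      rw [ENNReal.toReal_add (measure_ne_top _ _) (measure_ne_top _ _)]
      rfl
    rw [Finset.sum_congr rfl e2, cc_sum Z (n + 1) [] z hv hz j0 hj0 hB] at h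
    have h1 : (Z [] : ℝ) * cc Z (n + 1) [] z [] =
      (∑ j ∈ Finset.range (Z []), (FF (n + 1) Z [j] : ℝ)) * cc Z (n + 1) [] z [] +
        (bt (n + 1) Z [j0] z : ℝ) := by
      rw [← h]
      rfl
    have e3 : ∀ j ∈ Finset.range (Z []), (FF (n + 1) Z [j] : ℝ) = 1 - (kap n (sh j Z) : ℝ) := by
      intro j _
      unfold FF
      rw [NNReal.coe_sub (kap_le_one _ _)]
      rfl
    have e4 : (KK n Z : ℝ) = ∑ j ∈ Finset.range (Z []), (kap n (sh j Z) : ℝ) := by
      unfold KK
      rw [NNReal.coe_sum]
    rw [Finset.sum_congr rfl e3, Finset.sum_sub_distrib, Finset.sum_const, Finset.card_range,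
      nsmul_eq_mul, mul_one, ← e4] at h1
    have h2 : (KK n Z : ℝ) * cc Z (n + 1) [] z [] = (bt (n + 1) Z [j0] z : ℝ) := by
      linear_combination h1
    have hK' : (KK n Z : ℝ) ≠ 0 := by
      intro h'
      exact hK (by exact_mod_cast h')
    have h3 : cc Z (n + 1) [] z [] = ((bt (n + 1) Z [] z / kap (n + 1) Z : ℝ≥0) : ℝ) := by
      rw [bt_up (n + 1) Z [] j0 z hj0, FF_root, kap_succ, NNReal.coe_div, NNReal.coe_mul, ← h2,
        NNReal.coe_div, NNReal.coe_inv, NNReal.coe_add, NNReal.coe_one]
      have h0 : (0 : ℝ) ≤ (KK n Z : ℝ) := NNReal.coe_nonneg _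
      have h0' : (1 + (KK n Z : ℝ)) ≠ 0 := by positivity
      field_simp
    rw [← ENNReal.ofReal_toReal (measure_ne_top (Measure.infinitePi fun _ : ℕ => unif) _)]
    rw [← ENNReal.ofReal_coe_nnreal]
    congr 1
  · intro Z N x hx
    obtain ⟨hxt, hxl⟩ := (mem_vert _ _ _).mp hx
    have h1 : (PP {u | VE Z N x u}).toReal = (hh N Z [] x : ℝ) := by
      have h0 : (PP {u | VE Z N [] u}).toReal = 1 := by
        have e : {u | VE Z N [] u} = Set.univ := by
          ext u
          simp only [Set.mem_ofPred_eq, Set.mem_univ, iff_true]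
          refine ⟨0, rfl, fun k' hk' => ?_⟩
          have : k' = 0 := by omega
          subst this
          show 0 < N
          omega
        rw [e, measure_univ]
        rfl
      rcases List.eq_nil_or_concat x with h | ⟨w, j, h⟩
      · subst h
        rw [h0, hh_self]
        rfl
      · have hs : j :: [] <:+ x := ⟨w, by rw [h, List.concat_eq_append]⟩
        have key := dir1 Z N j [] (fun x => (PP {u | VE Z N x u}).toReal - (hh N Z [] x : ℝ))
          ?_ ?_ ?_ x hx hs
        · linarith
        · intro x hx hs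
          cases x with
          | nil =>
            have := List.suffix_nil.mp hs
            simp at this
          | cons i v =>
            have h1 := congrArg ENNReal.toReal (ce1.2.2.2.1 Z N (i :: v) hx (by simp))
            rw [ENNReal.toReal_mul, ENNReal.toReal_add (measure_ne_top _ _)
              (ENNReal.sum_ne_top.mpr fun j _ => measure_ne_top _ _), ENNReal.toReal_sum
              (fun j _ => measure_ne_top _ _)] at h1
            have e : ((Z (i :: v) : ℝ≥0∞) + 1).toReal = (Z (i :: v) : ℝ) + 1 := by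
              rw [ENNReal.toReal_add (ENNReal.natCast_ne_top _) ENNReal.one_ne_top]
              simp
            rw [e] at h1
            have h2 := dir.2.1 N Z (i :: v) ((mem_vert _ _ _).mp hx).2
            have h3 : ∀ j' ∈ Finset.range (Z (i :: v)), (hh N Z [] (j' :: i :: v) : ℝ) =
                (hh N Z [] (i :: v) : ℝ) * FF N Z (j' :: i :: v) := by
              intro j' _
              rw [hh_cons N Z [] j' (i :: v) List.nil_suffix]
              rfl
            have h4 : (hh N Z [] (i :: v) : ℝ) = (hh N Z [] v : ℝ) * FF N Z (i :: v) := by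
              rw [hh_cons N Z [] i v List.nil_suffix]
              rfl
            simp only [List.tail_cons] at h1 ⊢
            rw [Finset.sum_sub_distrib, Finset.sum_congr rfl h3, ← Finset.mul_sum]
            have h5 : (hh N Z [] (i :: v) : ℝ) * ((Z (i :: v) : ℝ) + 1 -
                ∑ j ∈ Finset.range (Z (i :: v)), (FF N Z (j :: i :: v) : ℝ)) = hh N Z [] v := by
              rw [h4, mul_assoc, h2, mul_one]
            linear_combination h1 - h5
        · intro x hx hs
          have hl := ((mem_lev _ _ _).mp hx).2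
          cases x with
          | nil =>
            have := List.suffix_nil.mp hs
            simp at this
          | cons i v =>
            have e : {u | VE Z N (i :: v) u} = ∅ := by
              ext u
              simp only [Set.mem_ofPred_eq, Set.mem_empty_iff_false, iff_false]
              exact (ce1.2.2.2.2 Z N (i :: v) [] [] u hl).2
            rw [e, measure_empty, hh_cons N Z [] i v List.nil_suffix, dir.2.2 N Z _ hl]
            simp
        · rw [h0, hh_self]
          simp
    rw [← ENNReal.ofReal_toReal (measure_ne_top (Measure.infinitePi fun _ : ℕ => unif) _)]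
    rw [← ENNReal.ofReal_coe_nnreal]
    congr 1

end Pool.Agent.W782.FR
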